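import Pool.Agent.TH389.BB.Main

/-!
Chromatic polynomials of bipartite plane graphs are positive at the Beraha numbers.
-/

set_option autoImplicit false

namespace Pool.Agent.Results.MP_569662_co.BipartiteBeraha

open Polynomial

/-- `f` is a drawing of `G` in the plane with straight non-crossing edges: vertices are distinct
points, no vertex lies in the interior of an edge, and the interiors of different edges are
disjoint. (Every finite planar graph has such a drawing.) -/
def StraightDrawing {V : Type} (G : SimpleGraph V) (f : V → ℝ × ℝ) : Prop :=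
  Function.Injective f ∧
  (∀ u v w : V, G.Adj u v → f w ∉ openSegment ℝ (f u) (f v)) ∧
  (∀ u v u' v' : V, G.Adj u v → G.Adj u' v' → s(u, v) ≠ s(u', v') →
    Disjoint (openSegment ℝ (f u) (f v)) (openSegment ℝ (f u') (f v')))

/-- Let `G` be a finite bipartite graph drawn in the plane with straight non-crossing edges. Then
its chromatic polynomial (the polynomial counting proper `n`-colourings at each natural `n`) is
strictly positive at every Beraha number `B_m = 2 + 2 cos (2π/m)`, `m ≥ 4`. -/
theorem result (V : Type) [Fintype V] (G : SimpleGraph V) (f : V → ℝ × ℝ)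
    (hf : StraightDrawing G f) (hG : G.Colorable 2)
    (p : ℝ[X]) (hp : ∀ n : ℕ, p.eval (n : ℝ) = (Nat.card (G.Coloring (Fin n)) : ℝ))
    (m : ℕ) (hm : 4 ≤ m) : 0 < p.eval (2 + 2 * Real.cos (2 * Real.pi / m)) :=
  Pool.Agent.TH389.BB.main_beraha G hG f hf p hp m hm

end Pool.Agent.Results.MP_569662_co.BipartiteBeraha
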