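import Pool.Agent.TH389.BW.Main

/-!
Root-free intervals `[4 cos² (π/(k+2)), ∞)` for bipartite plane graphs of line width at most `k`.
-/

set_option autoImplicit false

namespace Pool.Agent.Results.MP_569662_co.BipartiteLineWidth

open Polynomial

/-- `f` is a drawing of `G` in the plane with straight non-crossing edges: vertices are distinct
points, no vertex lies in the interior of an edge, and the interiors of different edges are
disjoint. -/
def StraightDrawing {V : Type} (G : SimpleGraph V) (f : V → ℝ × ℝ) : Prop :=
  Function.Injective f ∧
  (∀ u v w : V, G.Adj u v → f w ∉ openSegment ℝ (f u) (f v)) ∧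
  (∀ u v u' v' : V, G.Adj u v → G.Adj u' v' → s(u, v) ≠ s(u', v') →
    Disjoint (openSegment ℝ (f u) (f v)) (openSegment ℝ (f u') (f v')))

/-- The drawing has line width at most `k`: the vertices have distinct abscissas, and for every
vertical line at most `k` edges have one end strictly to the left and one end strictly to the
right of the line (an edge is counted once, as the pair of its left and its right end). -/
def LineWidthLE {V : Type} (G : SimpleGraph V) (f : V → ℝ × ℝ) (k : ℕ) : Prop :=
  Function.Injective (fun v => (f v).1) ∧
  ∀ t : ℝ, {e : V × V | G.Adj e.1 e.2 ∧ (f e.1).1 < t ∧ t < (f e.2).1}.ncard ≤ k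

/-- Let `k ≥ 2` and let `G` be a finite bipartite graph drawn in the plane with straight
non-crossing edges such that every vertical line crosses at most `k` edges. Then the chromatic
polynomial of `G` (the polynomial counting proper `n`-colourings at each natural `n`) is strictly
positive at every real `q ≥ 4 cos² (π / (k + 2))`. (For `k = 4` this is every real `q ≥ 3`; for
every `k` the bound is less than `4`.) -/
theorem result (V : Type) [Fintype V] (G : SimpleGraph V) (f : V → ℝ × ℝ)
    (hf : StraightDrawing G f) (k : ℕ) (hk : 2 ≤ k) (hw : LineWidthLE G f k)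
    (hG : G.Colorable 2)
    (p : ℝ[X]) (hp : ∀ n : ℕ, p.eval (n : ℝ) = (Nat.card (G.Coloring (Fin n)) : ℝ))
    (q : ℝ) (hq : 4 * Real.cos (Real.pi / (k + 2)) ^ 2 ≤ q) : 0 < p.eval q :=
  Pool.Agent.TH389.BW.main_width G hG f hf hw.1 k hk hw.2 p hp q hq

end Pool.Agent.Results.MP_569662_co.BipartiteLineWidth
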